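import Pool.Agent.P8H10.ZJoint

/-!
# Measures of algebraic independence: multiplication by algebraic numbers
-/

set_option autoImplicit false

open Finset Polynomial Pool.Agent.R356 Pool.Agent.N743.SS Pool.Agent.P8H10.ZM

namespace Pool.Agent.P8H73.GT

variable {ι : Type}

/-- the polynomials which are substituted -/
noncomputable def Γm [DecidableEq ι] (k₀ : ι) : ι → (MvPolynomial ι ℤ)[X] :=
  fun k => if k = k₀ then C (MvPolynomial.X k) * X else C (MvPolynomial.X k)

variable [DecidableEq ι]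

lemma evc_X {κ : Type} (x : κ → ℝ) (k : κ) : evc x (MvPolynomial.X k) = (x k : ℂ) := by simp

lemma evx_X {κ : Type} (x : κ → ℝ) (k : κ) : evx x (MvPolynomial.X k) = x k := by simp

lemma Γm_nd (k₀ k : ι) : Γm k₀ k ∈ ndF ι 1 := by
  unfold Γm
  split_ifs
  · refine ⟨(natDegree_C_mul_le _ _).trans natDegree_X_le, fun i => ?_⟩
    rw [coeff_C_mul, coeff_X]
    split_ifs
    · rw [mul_one]; simp
    · rw [mul_zero]; simp
  · exact ndF_C (by simp)

lemma Γm_len (k₀ k : ι) : len lenM (Γm k₀ k) ≤ 2 := by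
  unfold Γm
  split_ifs
  · refine (isLenM.poly.mul _ _).trans ?_
    rw [len_C isLenM]
    have h1 := lenM_X_le k
    have h2 := len_X_le (ι := ι)
    have h3 : 0 ≤ len lenM (X : (MvPolynomial ι ℤ)[X]) := isLenM.poly.nonneg _
    nlinarith [lenM_nonneg (MvPolynomial.X k : MvPolynomial ι ℤ)]
  · rw [len_C isLenM]
    exact (lenM_X_le _).trans (by norm_num)

/-- the family with one number multiplied -/
noncomputable def mulAt {K : Type} [Mul K] (k₀ : ι) (β : K) (x : ι → K) : ι → K :=
  fun k => if k = k₀ then β * x k else x k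

lemma mulAt_indep [Fintype ι] {K : Type} [Field K] [Algebra ℚ K] {x : ι → K} (hx : AlgebraicIndependent ℚ x) (k₀ : ι) {β : K}
    (hβ : IsAlgebraic ℚ β) (h0 : β ≠ 0) : AlgebraicIndependent ℚ (mulAt k₀ β x) := by
  refine indep_of_spanK hx (fun k => ?_) le_rfl
  have hβ' : β ∈ clK (Set.range (mulAt k₀ β x)) := by
    rw [mem_clK]
    exact IsAlgebraic.extendScalars (S := Algebra.adjoin ℚ (Set.range (mulAt k₀ β x)))
      (algebraMap ℚ (Algebra.adjoin ℚ (Set.range (mulAt k₀ β x)))).injective hβ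
  have h1 : mulAt k₀ β x k ∈ clK (Set.range (mulAt k₀ β x)) := subset_clK _ ⟨k, rfl⟩
  by_cases hk : k = k₀
  · have h2 : x k = β⁻¹ * mulAt k₀ β x k := by
      simp only [mulAt, if_pos hk]
      field_simp
    rw [h2]
    exact (clK _).mul_mem ((clK _).inv_mem hβ') h1
  · have h2 : x k = mulAt k₀ β x k := by simp only [mulAt, if_neg hk]
    rw [h2]
    exact h1

lemma Γm_ne (k₀ : ι) {P : MvPolynomial ι ℤ} (hP : P ≠ 0) : MvPolynomial.aeval (Γm k₀) P ≠ 0 := by
  intro h0
  have h1 : (Polynomial.evalRingHom (1 : MvPolynomial ι ℤ)) (MvPolynomial.aeval (Γm k₀) P) = P := by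
    have h2 : ((Polynomial.evalRingHom (1 : MvPolynomial ι ℤ))).comp
        (MvPolynomial.aeval (Γm k₀) : MvPolynomial ι ℤ →ₐ[ℤ] _).toRingHom = RingHom.id _ := by
      refine MvPolynomial.ringHom_ext (fun r => ?_) (fun i => ?_)
      · show eval 1 (MvPolynomial.aeval (Γm k₀) (MvPolynomial.C r)) = MvPolynomial.C r
        rw [MvPolynomial.aeval_C]
        show eval 1 (C (MvPolynomial.C r)) = MvPolynomial.C r
        rw [eval_C]
      · show eval 1 (MvPolynomial.aeval (Γm k₀) (MvPolynomial.X i)) = MvPolynomial.X i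
        rw [MvPolynomial.aeval_X]
        unfold Γm
        split_ifs with hi
        · rw [eval_mul, eval_C, eval_X, mul_one]
        · rw [eval_C]
    exact RingHom.congr_fun h2 P
  rw [h0, map_zero] at h1
  exact hP h1.symm

/-- **Multiplication of one number by an algebraic number** -/
theorem measM_mulAt [Fintype ι] {x : ι → ℝ} (h : MeasM x) (hAI : AlgebraicIndependent ℚ x) (k₀ : ι) {α : ℝ}
    (hα : IsAlgebraic ℤ α) (h0 : α ≠ 0) : MeasM (mulAt k₀ α x) := by
  intro D
  obtain ⟨A, hA0, hAα⟩ := hα.exists_nonzero_coeff_and_aeval_eq_zero (mem_nonZeroDivisors_of_ne_zero h0)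
  have hA : A ≠ 0 := fun h => hA0 (by rw [h, coeff_zero])
  obtain ⟨B, hB1, hB⟩ := exists_bound x
  obtain ⟨κ, c, hκ, hc, hp⟩ := pair_measure x h B hB1 hB α (max D A.natDegree)
  -- the constant polynomial
  obtain ⟨F, hF⟩ : ∃ F : (MvPolynomial ι ℤ)[X], F = A.map (Int.castRingHom (MvPolynomial ι ℤ)) := ⟨_, rfl⟩
  obtain ⟨LA, hLA1, hLA⟩ : ∃ LA : ℝ, 1 ≤ LA ∧ ∀ i, lenM (F.coeff i) ≤ LA := by
    refine ⟨1 + len lenM F, ?_, fun i => ?_⟩
    · have := isLenM.poly.nonneg F
      linarith
    · have := le_len isLenM F i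
      linarith
  obtain ⟨N, hN⟩ : ∃ N : ℝ, N = (max 1 (nmon ι D : ℝ) * 2 ^ D) * LA := ⟨_, rfl⟩
  have hM1 : 1 ≤ max 1 (nmon ι D : ℝ) * 2 ^ D :=
    one_le_mul_of_one_le_of_one_le (le_max_left _ _) (one_le_pow₀ (by norm_num))
  have hN1 : 1 ≤ N := by rw [hN]; exact one_le_mul_of_one_le_of_one_le hM1 hLA1
  have hinjc : Function.Injective (Int.castRingHom (MvPolynomial ι ℤ)) := by
    intro a b hab
    have : (MvPolynomial.C a : MvPolynomial ι ℤ) = MvPolynomial.C b := by simpa using hab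
    exact MvPolynomial.C_injective _ _ this
  have hFnd : F.natDegree = A.natDegree := by rw [hF, natDegree_map_eq_of_injective hinjc]
  have hF0 : F ≠ 0 := by
    rw [hF]
    exact fun h => hA ((Polynomial.map_eq_zero_iff hinjc).1 h)
  have hFc : ∀ i, F.coeff i = MvPolynomial.C (A.coeff i) := by
    intro i
    rw [hF, coeff_map]
    simp
  have hFα : (F.map (evx x)).eval α = 0 := by
    have h1 : (evx x).comp (Int.castRingHom (MvPolynomial ι ℤ)) = algebraMap ℤ ℝ := RingHom.ext_int _ _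
    rw [hF, Polynomial.map_map, h1, eval_map_algebraMap]
    exact hAα
  refine ⟨κ, c * N ^ (-κ), hκ, by positivity, fun P hP hPD H hPH => ?_⟩
  have hH1 : 1 ≤ H := one_le_of_mcoeff hP hPH
  obtain ⟨G, hG⟩ : ∃ G, G = MvPolynomial.aeval (Γm k₀) P := ⟨_, rfl⟩
  obtain ⟨a1, a2, a3⟩ := subst_bounds (Γm k₀) (Γm_nd k₀) (Γm_len k₀) P D hPD H hPH
  rw [← hG] at a1 a2 a3
  have hval : ∀ β : ℂ, (G.map (evc x)).eval β = MvPolynomial.aeval (mulAt k₀ β fun k => (x k : ℂ)) P := by
    intro β
    rw [hG]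
    refine subst_valc x (Γm k₀) _ β (fun k => ?_) P
    by_cases hk : k = k₀
    · rw [Γm, if_pos hk, mulAt, if_pos hk, Polynomial.map_mul, map_C, map_X, eval_mul, eval_C, eval_X,
        evc_X, mul_comm]
    · rw [Γm, if_neg hk, mulAt, if_neg hk, map_C, eval_C, evc_X]
  have hvalr : (G.map (evx x)).eval α = MvPolynomial.aeval (mulAt k₀ α x) P := by
    rw [hG]
    refine subst_val x (Γm k₀) _ α (fun k => ?_) P
    by_cases hk : k = k₀
    · rw [Γm, if_pos hk, mulAt, if_pos hk, Polynomial.map_mul, map_C, map_X, eval_mul, eval_C, eval_X,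
        evx_X, mul_comm]
    · rw [Γm, if_neg hk, mulAt, if_neg hk, map_C, eval_C, evx_X]
  have hres : resultant F G F.natDegree G.natDegree ≠ 0 := by
    have hinj := evc_inj hAI
    have hFcc : F.map (evc x) ≠ 0 := fun h => hF0 ((Polynomial.map_eq_zero_iff hinj).1 h)
    intro hz
    have h1 : resultant (F.map (evc x)) (G.map (evc x)) (F.map (evc x)).natDegree G.natDegree = 0 := by
      rw [natDegree_map_eq_of_injective hinj, resultant_map_map, hz, map_zero]
    rw [resultant_eq_prod_eval _ _ _ natDegree_map_le (IsAlgClosed.splits _), mul_eq_zero] at h1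
    have h2 := h1.resolve_left (pow_ne_zero _ (leadingCoeff_ne_zero.2 hFcc))
    rw [Multiset.prod_eq_zero_iff, Multiset.mem_map] at h2
    obtain ⟨β, hβ, hβ0⟩ := h2
    have hβr : (F.map (evc x)).eval β = 0 := (mem_roots hFcc).1 hβ
    have hFm : F.map (evc x) = A.map (algebraMap ℤ ℂ) := by
      have h1 : (evc x).comp (Int.castRingHom (MvPolynomial ι ℤ)) = algebraMap ℤ ℂ := RingHom.ext_int _ _
      rw [hF, Polynomial.map_map, h1]
    rw [hFm, eval_map_algebraMap] at hβr
    have hβ00 : β ≠ 0 := by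
      intro hb
      rw [hb, aeval_def, eval₂_at_zero] at hβr
      exact hA0 ((RingHom.injective_int (algebraMap ℤ ℂ)) (by rw [hβr, map_zero]))
    have hβa : IsAlgebraic ℚ β := by
      have : IsAlgebraic ℤ β := ⟨A, hA, hβr⟩
      exact this.extendScalars (RingHom.injective_int (algebraMap ℤ ℚ))
    have hAIc : AlgebraicIndependent ℚ (fun k => (x k : ℂ)) :=
      hAI.map' (f := (Algebra.ofId ℝ ℂ).restrictScalars ℚ) Complex.ofReal_injective
    have h6 : AlgebraicIndependent ℤ (mulAt k₀ β fun k => (x k : ℂ)) :=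
      (mulAt_indep hAIc k₀ hβa hβ00).restrictScalars (RingHom.injective_int (algebraMap ℤ ℚ))
    refine hP (h6.eq_zero_of_aeval_eq_zero P ?_)
    rw [← hval, hβ0]
  have hNH : 1 ≤ N * H := one_le_mul_of_one_le_of_one_le hN1 hH1
  have h3 := hp F G hF0 (hFnd.le.trans (le_max_right _ _)) (a1.trans (le_max_left _ _)) (fun i => by
      rw [hFc, MvPolynomial.totalDegree_C]; exact Nat.zero_le _)
    (fun i => (a2 i).trans (le_max_left _ _)) hres (N * H) hNH (fun i => by
      refine (hLA i).trans ?_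
      rw [hN]
      calc LA = 1 * LA * 1 := by ring
        _ ≤ (max 1 (nmon ι D : ℝ) * 2 ^ D) * LA * H := by gcongr)
    (fun i => by
      refine (a3 i).trans ?_
      rw [hN]
      calc (max 1 (nmon ι D : ℝ) * 2 ^ D) * H = (max 1 (nmon ι D : ℝ) * 2 ^ D) * 1 * H := by ring
        _ ≤ (max 1 (nmon ι D : ℝ) * 2 ^ D) * LA * H := by gcongr)
  rw [hFα, hvalr, rpow_neg_mul hN1 (by linarith), ← mul_assoc] at h3
  simpa using h3

/-- **Multiplication by algebraic numbers** -/
theorem measM_mul [Fintype ι] {x : ι → ℝ} (h : MeasM x) (hAI : AlgebraicIndependent ℚ x) (α : ι → ℝ)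
    (hα : ∀ k, IsAlgebraic ℤ (α k)) (h0 : ∀ k, α k ≠ 0) :
    MeasM (fun k => α k * x k) ∧ AlgebraicIndependent ℚ (fun k => α k * x k) := by
  have key : ∀ s : Finset ι, MeasM (fun k => if k ∈ s then α k * x k else x k) ∧
      AlgebraicIndependent ℚ (fun k => if k ∈ s then α k * x k else x k) := by
    intro s
    induction s using Finset.induction_on with
    | empty => simpa using ⟨h, hAI⟩
    | insert a s ha ih =>
      have h1 : (fun k => if k ∈ insert a s then α k * x k else x k) =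
          mulAt a (α a) (fun k => if k ∈ s then α k * x k else x k) := by
        funext k
        by_cases hk : k = a
        · subst hk
          simp [mulAt, ha]
        · simp [mulAt, hk]
      rw [h1]
      exact ⟨measM_mulAt ih.1 ih.2 a (hα a) (h0 a),
        mulAt_indep ih.2 a ((hα a).extendScalars (RingHom.injective_int (algebraMap ℤ ℚ))) (h0 a)⟩
  simpa using key Finset.univ

end Pool.Agent.P8H73.GT
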