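import Pool.Agent.P8H73.GT.Int
import Pool.Agent.P8H73.GT.Alg
import Pool.Agent.N743.SS.MultiT
import Mathlib.NumberTheory.Niven

/-!
# The measure of the integrals over squares
-/

set_option autoImplicit false

open Finset Pool.Agent.R356 Pool.Agent.N743.SS Pool.Agent.P8H10.ZM

namespace Pool.Agent.P8H73.GT

open Pool.Agent.R352.T

open Pool.Agent.R352.E (clF subset_clF clF_mono clF_le of_pow indep_of_span rat_mem)

lemma sin_alg (a : ℚ) : IsAlgebraic ℤ (Real.sin (Real.pi * a)) := by
  have h := Real.isIntegral_two_mul_cos_rat_mul_pi (1 / 2 - a)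
  have h1 : Real.sin (Real.pi * a) = Real.cos (((1 / 2 - a : ℚ) : ℝ) * Real.pi) := by
    rw [← Real.cos_pi_div_two_sub]
    congr 1
    push_cast
    ring
  rw [h1]
  have h2 : IsAlgebraic ℤ (2 : ℝ) := by
    have := isAlgebraic_natCast (R := ℤ) (A := ℝ) 2
    simpa using this
  have h3 := (h.isAlgebraic).mul h2.inv
  have h4 : 2 * Real.cos (((1 / 2 - a : ℚ) : ℝ) * Real.pi) * (2 : ℝ)⁻¹ = Real.cos (((1 / 2 - a : ℚ) : ℝ) * Real.pi) := by
    ring
  rwa [h4] at h3

/-- the values of the E-functions -/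
noncomputable def Ef (S : Finset (ℚ × ℚ)) : Option S → ℝ := fun o => o.elim (Real.exp 1) fun p => EA p.1.1 1 p.1.2

lemma AI_E (S : Finset (ℚ × ℚ)) (hS : ∀ p ∈ S, 0 ≤ p.1 ∧ p.1 < 1 ∧ 0 < p.2) : AlgebraicIndependent ℚ (Ef S) := by
  let f : Option S → Option PI := Option.map fun p => ⟨(0, p.1.1, p.1.2), hS p.1 p.2⟩
  have hf : Function.Injective f := by
    refine Option.map_injective ?_
    intro p p' h
    simp only [Subtype.mk.injEq, Prod.mk.injEq, true_and] at h
    exact Subtype.ext (Prod.ext h.1 h.2)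
  have h2 := EA_alg_Q.comp f hf
  convert h2 using 1
  funext o
  cases o <;> simp [f, Ef]

/-- a common denominator -/
lemma exists_q (S : Finset (ℚ × ℚ)) (hS : ∀ p ∈ S, 0 ≤ p.1 ∧ p.1 < 1 ∧ 0 < p.2) :
    ∃ (q : ℕ) (cc mm : S → ℕ), 1 ≤ q ∧ (∀ p, (cc p : ℝ) / q = p.1.1) ∧ (∀ p, (mm p : ℝ) / q = p.1.2) ∧
      (∀ p, cc p < q) ∧ ∀ p, 1 ≤ mm p := by
  classical
  set q : ℕ := (∏ p : S, p.1.2.den) * ∏ p : S, p.1.1.den with hqd
  have hq : 1 ≤ q := Nat.one_le_iff_ne_zero.2 (Nat.mul_ne_zero
    (Finset.prod_ne_zero_iff.2 fun i _ => i.1.2.den_ne_zero) (Finset.prod_ne_zero_iff.2 fun i _ => i.1.1.den_ne_zero))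
  have hqp : (0 : ℝ) < q := by positivity
  have h1 := common_den (fun p : S => p.1.2) (fun i => (hS i.1 i.2).2.2.le) q
    (fun i => (Finset.dvd_prod_of_mem (fun i : S => i.1.2.den) (Finset.mem_univ i)).trans (dvd_mul_right _ _)) hq
  have h2 := common_den (fun p : S => p.1.1) (fun i => (hS i.1 i.2).1) q
    (fun i => (Finset.dvd_prod_of_mem (fun i : S => i.1.1.den) (Finset.mem_univ i)).trans (dvd_mul_left _ _)) hq
  choose mm hmm using h1
  choose cc hcc using h2
  refine ⟨q, cc, mm, hq, hcc, hmm, fun i => ?_, fun i => ?_⟩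
  · have h1 := hcc i
    have h3 : ((i.1.1 : ℚ) : ℝ) < 1 := by exact_mod_cast (hS i.1 i.2).2.1
    rw [← h1, div_lt_one hqp] at h3
    exact_mod_cast h3
  · by_contra h
    have h0 : mm i = 0 := by omega
    have h1 := hmm i
    rw [h0, Nat.cast_zero, zero_div] at h1
    have : (0 : ℝ) < ((i.1.2 : ℚ) : ℝ) := by exact_mod_cast (hS i.1 i.2).2.2
    linarith

theorem measM_E (S : Finset (ℚ × ℚ)) (hS : ∀ p ∈ S, 0 ≤ p.1 ∧ p.1 < 1 ∧ 0 < p.2) : MeasM (Ef S) := by
  classical
  obtain ⟨q, cc, mm, hq, hcc, hmm, hcq, hmp⟩ := exists_q S hS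
  have hq0 : (q : ℝ) ≠ 0 := by positivity
  let e : S ≃ Fin S.card := S.equivFin
  have hbase := measM_EA 1 S.card (fun i => mm (e.symm i)) (fun i => cc (e.symm i)) (fun i j h1 h2 => by
      apply e.symm.injective
      refine Subtype.ext (Prod.ext ?_ ?_)
      · have h3 := hcc (e.symm i)
        rw [h2, hcc (e.symm j)] at h3
        exact_mod_cast h3.symm
      · have h3 := hmm (e.symm i)
        rw [h1, hmm (e.symm j)] at h3
        exact_mod_cast h3.symm) (fun i => hmp _) hq (fun i => hcq _)
  let g : Option S → Option (Fin 1 × Fin S.card) := Option.map fun p => (0, e p)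
  have hg : Function.Injective g := by
    refine Option.map_injective ?_
    intro a b hab
    exact e.injective (congrArg Prod.snd hab)
  have h1 := hbase.comp g hg
  have h2 : MeasM (fun o : Option S => o.elim ((Real.exp 1)⁻¹) (fun p => EA p.1.1 1 p.1.2)) := by
    refine measM_subst h1 (fun o : Option S => o.elim (MvPolynomial.X none ^ q) fun p => MvPolynomial.X (some p))
      (fun o => ?_) ?_
    · cases o with
      | none =>
        simp only [Option.elim, map_pow, MvPolynomial.aeval_X, Function.comp_apply, g, Option.map_none]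
        rw [← Real.exp_nat_mul, ← Real.exp_neg]
        congr 1
        field_simp
      | some p =>
        simp only [Option.elim, MvPolynomial.aeval_X, Function.comp_apply, g, Option.map_some, Equiv.symm_apply_apply]
        rw [hcc, hmm]
        norm_num
    · refine indep_of_span (AI_E S hS) (fun o => ?_) le_rfl
      cases o with
      | none =>
        have h2 : Real.exp 1 = ((Real.exp 1)⁻¹)⁻¹ := (inv_inv _).symm
        simp only [Ef, Option.elim]
        rw [h2]
        exact (clF _).inv_mem (subset_clF _ ⟨none, by simp⟩)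
      | some x => exact subset_clF _ ⟨some x, rfl⟩
  refine measM_inv h2 none ?_ ?_ ?_
  · simp only [Option.elim]
    positivity
  · simp [Ef]
  · intro j hj
    cases j with
    | none => exact absurd rfl hj
    | some x => rfl

/-- admissible pairs -/
def Adm (p : ℚ × ℚ) : Prop := 0 < p.1 ∧ p.1 ≤ 1 / 2 ∧ 0 < p.2

/-- the reflected pair -/
def rf (p : ℚ × ℚ) : ℚ × ℚ := (1 - p.1, p.2)

/-- the family of the numbers `e`, `C_a(x)` -/
noncomputable def Cf (S : Finset (ℚ × ℚ)) : Option S → ℝ := fun o => o.elim (Real.exp 1) fun p => Ct p.1.1 p.1.2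

theorem meas_C (S : Finset (ℚ × ℚ)) (hS : ∀ p ∈ S, Adm p) : MeasM (Cf S) ∧ AlgebraicIndependent ℚ (Cf S) := by
  classical
  -- the closure under reflection
  let U : Finset (ℚ × ℚ) := S ∪ S.image rf
  have hU : ∀ p ∈ U, 0 < p.1 ∧ p.1 < 1 ∧ 0 < p.2 := by
    intro p hp
    rcases Finset.mem_union.1 hp with h | h
    · obtain ⟨h1, h2, h3⟩ := hS p h
      exact ⟨h1, by linarith, h3⟩
    · obtain ⟨p', h', rfl⟩ := Finset.mem_image.1 h
      obtain ⟨h1, h2, h3⟩ := hS p' h'
      refine ⟨?_, ?_, h3⟩
      · simp only [rf]; linarith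
      · simp only [rf]; linarith
  have hSU : ∀ p ∈ S, p ∈ U := fun p hp => Finset.mem_union_left _ hp
  have hrU : ∀ p ∈ S, rf p ∈ U := fun p hp => Finset.mem_union_right _ (Finset.mem_image_of_mem _ hp)
  have hUS : ∀ p ∈ U, p.1 ≤ 1 / 2 → p ∈ S := by
    intro p hp hp2
    rcases Finset.mem_union.1 hp with h | h
    · exact h
    · obtain ⟨p', h', rfl⟩ := Finset.mem_image.1 h
      obtain ⟨h1, h2, h3⟩ := hS p' h'
      have h4 : p'.1 = 1 / 2 := by
        simp only [rf] at hp2
        linarith
      have h5 : rf p' = p' := by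
        refine Prod.ext ?_ rfl
        simp only [rf]
        linarith
      rw [h5]
      exact h'
  have hU' : ∀ p ∈ U, 0 ≤ p.1 ∧ p.1 < 1 ∧ 0 < p.2 := fun p hp => ⟨(hU p hp).1.le, (hU p hp).2⟩
  obtain ⟨q, cc, mm, hq, hcc, hmm, hcq, hmp⟩ := exists_q U hU'
  have hq0 : (0 : ℝ) < q := by positivity
  have hAIE := AI_E U hU'
  have hcp : ∀ p : U, 1 ≤ cc p := by
    intro p
    by_contra h
    have h0 : cc p = 0 := by omega
    have h1 := hcc p
    rw [h0, Nat.cast_zero, zero_div] at h1
    have : (0 : ℝ) < ((p.1.1 : ℚ) : ℝ) := by exact_mod_cast (hU p.1 p.2).1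
    linarith
  -- the reflection of a small element
  let r : U → U := fun p => if h : p.1.1 ≤ 1 / 2 then ⟨rf p.1, hrU p.1 (hUS p.1 p.2 h)⟩ else p
  -- the numbers
  let z : U → ℝ := fun p => mm p * (q - cc p * EA p.1.1 1 p.1.2) *
    (q - (q - cc p : ℕ) * EA (r p).1.1 1 (r p).1.2)
  let y : Option U → ℝ := fun o => o.elim (Real.exp 1) fun p => if p.1.1 ≤ 1 / 2 then z p else EA p.1.1 1 p.1.2
  have hne : ∀ (p : U) (k : ℕ), 1 ≤ k → (q : ℝ) - k * EA p.1.1 1 p.1.2 ≠ 0 := by
    intro p k hk h0
    have h1 := hAIE.transcendental (some p)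
    apply h1
    have h2 : Ef U (some p) = algebraMap ℚ ℝ ((q : ℚ) / k) := by
      have hk0 : (k : ℝ) ≠ 0 := by positivity
      simp only [Ef, Option.elim]
      rw [eq_ratCast]
      push_cast
      field_simp
      linarith
    rw [h2]
    exact isAlgebraic_algebraMap _
  have hyAI : AlgebraicIndependent ℚ y := by
    refine indep_of_span hAIE (fun o => ?_) le_rfl
    cases o with
    | none => exact subset_clF _ ⟨none, rfl⟩
    | some p =>
      have hself : y (some p) ∈ clF (Set.range y) := subset_clF _ ⟨some p, rfl⟩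
      show EA p.1.1 1 p.1.2 ∈ clF (Set.range y)
      by_cases hp : p.1.1 ≤ 1 / 2
      · have e1 : y (some p) = z p := by simp only [y, Option.elim, if_pos hp]
        rw [e1] at hself
        have hmp0 : (mm p : ℝ) ≠ 0 := by
          have := hmp p
          positivity
        have hcp0 : (cc p : ℝ) ≠ 0 := by
          have := hcp p
          positivity
        have key : (q : ℝ) - cc p * EA p.1.1 1 p.1.2 ∈ clF (Set.range y) := by
          by_cases hh : p.1.1 = 1 / 2
          · -- the square
            have h1 : r p = p := by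
              simp only [r, dif_pos hp]
              refine Subtype.ext (Prod.ext ?_ rfl)
              show 1 - p.1.1 = p.1.1
              rw [hh]; norm_num
            have h2 : q - cc p = cc p := by
              have h3 := hcc p
              rw [hh] at h3
              have h4 : (2 : ℝ) * cc p = q := by
                push_cast at h3
                field_simp at h3
                linarith
              have h5 : 2 * cc p = q := by exact_mod_cast h4
              omega
            refine of_pow (n := 2) two_ne_zero ?_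
            have h3 : ((q : ℝ) - cc p * EA p.1.1 1 p.1.2) ^ 2 = (mm p : ℝ)⁻¹ * z p := by
              simp only [z, h1, h2]
              field_simp
            rw [h3]
            exact (clF _).mul_mem ((clF _).inv_mem (natCast_mem _ _)) hself
          · have hr : (r p).1.1 = 1 - p.1.1 := by
              simp only [r, dif_pos hp]
              rfl
            have hlt : p.1.1 < 1 / 2 := lt_of_le_of_ne hp hh
            have hr2 : ¬ (r p).1.1 ≤ 1 / 2 := by
              rw [hr]; push Not; linarith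
            have h1 : EA (r p).1.1 1 (r p).1.2 ∈ clF (Set.range y) := by
              refine subset_clF _ ⟨some (r p), ?_⟩
              simp only [y, Option.elim, if_neg hr2]
            have h2 := hne (r p) (q - cc p) (by have := hcq p; omega)
            have h3 : (q : ℝ) - cc p * EA p.1.1 1 p.1.2 =
                z p / (mm p * (q - (q - cc p : ℕ) * EA (r p).1.1 1 (r p).1.2)) := by
              simp only [z]
              rw [eq_div_iff (mul_ne_zero hmp0 h2)]
              ring
            rw [h3]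
            refine (clF _).div_mem hself ((clF _).mul_mem (natCast_mem _ _) ((clF _).sub_mem (natCast_mem _ _)
              ((clF _).mul_mem (natCast_mem _ _) h1)))
        have h4 : EA p.1.1 1 p.1.2 = ((q : ℝ) - (q - cc p * EA p.1.1 1 p.1.2)) / cc p := by
          field_simp
          ring
        rw [h4]
        exact (clF _).div_mem ((clF _).sub_mem (natCast_mem _ _) key) (natCast_mem _ _)
      · have e1 : y (some p) = EA p.1.1 1 p.1.2 := by simp only [y, Option.elim, if_neg hp]
        rwa [e1] at hself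
  have hy : MeasM y := by
    refine measM_subst (measM_E U hU') (fun o : Option U => o.elim (MvPolynomial.X none) fun p =>
      if p.1.1 ≤ 1 / 2 then (mm p : MvPolynomial (Option U) ℤ) * ((q : MvPolynomial (Option U) ℤ) - (cc p : MvPolynomial (Option U) ℤ) * MvPolynomial.X (some p)) *
        ((q : MvPolynomial (Option U) ℤ) - ((q - cc p : ℕ) : MvPolynomial (Option U) ℤ) * MvPolynomial.X (some (r p)))
      else MvPolynomial.X (some p)) (fun o => ?_) hyAI
    cases o with
    | none => simp [y, Ef]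
    | some p =>
      by_cases hp : p.1.1 ≤ 1 / 2
      · simp only [y, Option.elim, if_pos hp, map_mul, map_sub, map_natCast, MvPolynomial.aeval_X, Ef, z]
      · simp only [y, Option.elim, if_neg hp, MvPolynomial.aeval_X, Ef]
  -- the subfamily and the multiplication
  let f : Option S → Option U := Option.map fun p => ⟨p.1, hSU p.1 p.2⟩
  have hf : Function.Injective f := by
    refine Option.map_injective ?_
    intro a b hab
    simp only [Subtype.mk.injEq] at hab
    exact Subtype.ext hab
  have h1 := hy.comp f hf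
  have h2 : AlgebraicIndependent ℚ (y ∘ f) := hyAI.comp f hf
  let α : Option S → ℝ := fun o => o.elim 1 fun p => Real.sin (Real.pi * p.1.1) *
    ((q * (cc ⟨p.1, hSU p.1 p.2⟩ * (q - cc ⟨p.1, hSU p.1 p.2⟩)) : ℕ) : ℝ)⁻¹
  have hαpos : ∀ p : S, 0 < Real.sin (Real.pi * p.1.1) := by
    intro p
    obtain ⟨h3, h4, h5⟩ := hS p.1 p.2
    have h3' : (0 : ℝ) < ((p.1.1 : ℚ) : ℝ) := by exact_mod_cast h3
    have h4' : ((p.1.1 : ℚ) : ℝ) ≤ 1 / 2 := by
      have : ((p.1.1 : ℚ) : ℝ) ≤ ((1 / 2 : ℚ) : ℝ) := by exact_mod_cast h4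
      simpa using this
    refine Real.sin_pos_of_pos_of_lt_pi (by positivity) ?_
    nlinarith [Real.pi_pos]
  have hden : ∀ p : S, 0 < q * (cc ⟨p.1, hSU p.1 p.2⟩ * (q - cc ⟨p.1, hSU p.1 p.2⟩)) := by
    intro p
    have h3 := hcp ⟨p.1, hSU p.1 p.2⟩
    have h4 := hcq ⟨p.1, hSU p.1 p.2⟩
    exact Nat.mul_pos (by omega) (Nat.mul_pos (by omega) (by omega))
  have h3 := measM_mul h1 h2 α (fun o => by
      cases o with
      | none => exact isAlgebraic_one
      | some p =>
        refine (sin_alg p.1.1).mul ?_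
        exact (isAlgebraic_natCast _).inv) (fun o => by
      cases o with
      | none => exact one_ne_zero
      | some p =>
        refine mul_ne_zero (hαpos p).ne' (inv_ne_zero ?_)
        have := hden p
        exact_mod_cast this.ne')
  have h4 : (fun o => α o * (y ∘ f) o) = Cf S := by
    funext o
    cases o with
    | none => simp [α, f, y, Cf]
    | some p =>
      obtain ⟨h3, h4, h5⟩ := hS p.1 p.2
      have h3' : (0 : ℝ) < ((p.1.1 : ℚ) : ℝ) := by exact_mod_cast h3
      have h4' : ((p.1.1 : ℚ) : ℝ) < 1 := by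
        have : p.1.1 < 1 := by linarith
        exact_mod_cast this
      have h5' : (0 : ℝ) < ((p.1.2 : ℚ) : ℝ) := by exact_mod_cast h5
      have hp : (⟨p.1, hSU p.1 p.2⟩ : U).1.1 ≤ 1 / 2 := h4
      have hr1 : (r ⟨p.1, hSU p.1 p.2⟩).1 = rf p.1 := by
        simp only [r]
        rw [dif_pos hp]
      have hc := hcc ⟨p.1, hSU p.1 p.2⟩
      have hm := hmm ⟨p.1, hSU p.1 p.2⟩
      have hc1 := hcp ⟨p.1, hSU p.1 p.2⟩
      have hc2 := hcq ⟨p.1, hSU p.1 p.2⟩
      simp only at hc hm
      show α (some p) * y (some ⟨p.1, hSU p.1 p.2⟩) = Ct p.1.1 p.1.2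
      simp only [α, y, Option.elim, if_pos hp, z]
      rw [Ct_eq h3' h4' h5', hr1]
      simp only [rf]
      generalize hE2 : EA (((1 - p.1.1 : ℚ)) : ℝ) 1 ((p.1.2 : ℚ) : ℝ) = E2
      have hE2' : EA (1 - ((p.1.1 : ℚ) : ℝ)) 1 ((p.1.2 : ℚ) : ℝ) = E2 := by
        rw [← hE2]
        push_cast
        rfl
      rw [hE2']
      generalize EA ((p.1.1 : ℚ) : ℝ) 1 ((p.1.2 : ℚ) : ℝ) = E1
      generalize cc ⟨p.1, hSU p.1 p.2⟩ = c at hc hc1 hc2 ⊢
      generalize mm ⟨p.1, hSU p.1 p.2⟩ = m at hm ⊢
      generalize ((p.1.1 : ℚ) : ℝ) = a at hc h3' h4' ⊢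
      generalize ((p.1.2 : ℚ) : ℝ) = x at hm h5' ⊢
      generalize Real.sin (Real.pi * a) = s0
      have hc0 : (c : ℝ) ≠ 0 := by positivity
      have hqc : (q : ℝ) - c ≠ 0 := by
        have : (c : ℝ) < q := by exact_mod_cast hc2
        linarith
      have ha0 : a ≠ 0 := h3'.ne'
      have ha1 : 1 - a ≠ 0 := by linarith
      have hc' : (c : ℝ) = q * a := by rw [← hc]; field_simp
      have hm' : (m : ℝ) = q * x := by rw [← hm]; field_simp
      rw [Nat.cast_mul, Nat.cast_mul, Nat.cast_sub hc2.le, hc', hm']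
      have hqq : (q : ℝ) ≠ 0 := hq0.ne'
      have e1 : (q : ℝ) - q * a = q * (1 - a) := by ring
      rw [e1]
      field_simp
      try ring
  rw [h4] at h3
  exact h3

end Pool.Agent.P8H73.GT
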