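import Pool.Agent.R352.T.Fam

/-!
# The number `π` as a double integral, and the integral outside a square
-/

set_option autoImplicit false

open Filter Topology Set MeasureTheory

namespace Pool.Agent.P8H73.GT

open Pool.Agent.R352.T

/-- `s^(a-1) t^(-a) exp(-s-t)` -/
noncomputable def ker (a : ℝ) (p : ℝ × ℝ) : ℝ := p.1 ^ (a - 1) * p.2 ^ (-a) * Real.exp (-(p.1 + p.2))

/-- the points of the quadrant with a coordinate at least `x` -/
def out (x : ℝ) : Set (ℝ × ℝ) := {p | 0 < p.1 ∧ 0 < p.2 ∧ x ≤ max p.1 p.2}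

/-- the square -/
def sq (x : ℝ) : Set (ℝ × ℝ) := {p | 0 < p.1 ∧ 0 < p.2 ∧ max p.1 p.2 < x}

/-- the tails -/
noncomputable def Pt (a x : ℝ) : ℝ := Real.sin (Real.pi * a) * ∫ p in out x, ker a p

/-- the integrals over squares -/
noncomputable def Ct (a x : ℝ) : ℝ := Real.sin (Real.pi * a) * ∫ p in sq x, ker a p

lemma sq_eq (x : ℝ) : sq x = Ioo 0 x ×ˢ Ioo 0 x := by
  ext p
  simp only [sq, Set.mem_ofPred_eq, mem_prod, mem_Ioo, max_lt_iff]
  tauto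

lemma out_eq {x : ℝ} : out x = (Ioi 0 ×ˢ Ioi 0) \ (Ioo 0 x ×ˢ Ioo 0 x) := by
  ext p
  simp only [out, Set.mem_ofPred_eq, Set.mem_sdiff, mem_prod, mem_Ioo, mem_Ioi, le_max_iff]
  constructor
  · rintro ⟨h1, h2, h3⟩
    refine ⟨⟨h1, h2⟩, fun h => ?_⟩
    rcases h3 with h3 | h3 <;> linarith [h.1.2, h.2.2]
  · rintro ⟨⟨h1, h2⟩, h3⟩
    refine ⟨h1, h2, ?_⟩
    by_contra h4
    push Not at h4
    exact h3 ⟨⟨h1, h4.1⟩, h2, h4.2⟩

lemma fa0 (a t : ℝ) : fa a 0 t = t ^ (a - 1) * Real.exp (-t) := by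
  simp [fa, Pool.Agent.R352.E.fr]

lemma ker_eq (a : ℝ) (p : ℝ × ℝ) : ker a p = fa a 0 p.1 * fa (1 - a) 0 p.2 := by
  rw [ker, fa0, fa0, neg_add, Real.exp_add]
  have : (1 - a - 1 : ℝ) = -a := by ring
  rw [this]
  ring

/-- the incomplete gamma function -/
noncomputable def gam (a x : ℝ) : ℝ := x ^ a * (1 / a - EA a 1 x)

lemma gam_eq {a : ℝ} (ha : 0 < a) {x : ℝ} (hx : 0 < x) : ∫ t in Ioo 0 x, fa a 0 t = gam a x := by
  have h := RA_eq_QA ha 0 hx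
  simp only [RA, QA, Nat.factorial_zero, Nat.cast_one, one_mul, zero_add, pow_one, Finset.sum_range_one,
    Nat.choose_self, pow_zero, Nat.sub_self] at h
  rw [gam, h, Ma, intervalIntegral.integral_of_le hx.le, integral_Ioc_eq_integral_Ioo]

lemma int_sq {a : ℝ} (ha : 0 < a) (ha1 : a < 1) {x : ℝ} (hx : 0 < x) :
    ∫ p in Ioo 0 x ×ˢ Ioo 0 x, ker a p = gam a x * gam (1 - a) x := by
  have h := setIntegral_prod_mul (μ := (volume : Measure ℝ)) (ν := (volume : Measure ℝ)) (fa a 0) (fa (1 - a) 0)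
    (Ioo 0 x) (Ioo 0 x)
  rw [gam_eq ha hx, gam_eq (by linarith) hx] at h
  rw [← h, Measure.volume_eq_prod]
  congr 1
  funext p
  exact ker_eq a p

lemma int_full {a : ℝ} (ha : 0 < a) (ha1 : a < 1) :
    ∫ p in Ioi (0 : ℝ) ×ˢ Ioi (0 : ℝ), ker a p = Real.Gamma a * Real.Gamma (1 - a) := by
  have h := setIntegral_prod_mul (μ := (volume : Measure ℝ)) (ν := (volume : Measure ℝ)) (fa a 0) (fa (1 - a) 0)
    (Ioi 0) (Ioi 0)
  rw [← ma_zero ha, ← ma_zero (by linarith : 0 < 1 - a), ma, ma, ← h, Measure.volume_eq_prod]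
  congr 1
  funext p
  exact ker_eq a p

lemma ker_int {a : ℝ} (ha : 0 < a) (ha1 : a < 1) :
    IntegrableOn (ker a) (Ioi (0 : ℝ) ×ˢ Ioi (0 : ℝ)) volume := by
  have h1 := (fa_integrable ha 0).mul_prod (fa_integrable (by linarith : 0 < 1 - a) 0)
  rw [Measure.prod_restrict] at h1
  have h2 : (fun z : ℝ × ℝ => fa a 0 z.1 * fa (1 - a) 0 z.2) = ker a := by
    funext p
    exact (ker_eq a p).symm
  rw [h2] at h1
  exact h1

lemma refl_eq {a : ℝ} (ha : 0 < a) (ha1 : a < 1) :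
    Real.sin (Real.pi * a) * (Real.Gamma a * Real.Gamma (1 - a)) = Real.pi := by
  rw [Real.Gamma_mul_Gamma_one_sub]
  have : Real.sin (Real.pi * a) ≠ 0 := by
    refine (Real.sin_pos_of_pos_of_lt_pi (by positivity) ?_).ne'
    nlinarith [Real.pi_pos]
  field_simp

lemma Ct_eq {a : ℝ} (ha : 0 < a) (ha1 : a < 1) {x : ℝ} (hx : 0 < x) :
    Ct a x = Real.sin (Real.pi * a) * (x * (1 / a - EA a 1 x) * (1 / (1 - a) - EA (1 - a) 1 x)) := by
  rw [Ct, sq_eq, int_sq ha ha1 hx, gam, gam]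
  have h1 : x ^ a * x ^ (1 - a) = x := by
    rw [← Real.rpow_add hx]
    simp
  linear_combination (Real.sin (Real.pi * a) * (1 / a - EA a 1 x) * (1 / (1 - a) - EA (1 - a) 1 x)) * h1

lemma Pt_eq {a : ℝ} (ha : 0 < a) (ha1 : a < 1) (x : ℝ) : Pt a x = Real.pi - Ct a x := by
  have h1 : Ioo 0 x ×ˢ Ioo 0 x ⊆ Ioi (0 : ℝ) ×ˢ Ioi (0 : ℝ) :=
    Set.prod_mono Ioo_subset_Ioi_self Ioo_subset_Ioi_self
  rw [Pt, Ct, out_eq, sq_eq, setIntegral_sdiff (measurableSet_Ioo.prod measurableSet_Ioo) (ker_int ha ha1) h1,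
    int_full ha ha1, mul_sub, refl_eq ha ha1]

lemma Pt_zero {a : ℝ} (ha : 0 < a) (ha1 : a < 1) : Pt a 0 = Real.pi := by
  have h : out 0 = Ioi (0 : ℝ) ×ˢ Ioi (0 : ℝ) := by
    rw [out_eq]
    simp
  rw [Pt, h, int_full ha ha1, refl_eq ha ha1]

end Pool.Agent.P8H73.GT
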