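import Pool.Agent.P8H73.GT.Fam
import Pool.Agent.P8H10.ZLio

/-!
# The number `π` and the integrals outside squares over simultaneously Liouville fields
-/

set_option autoImplicit false

open MeasureTheory Set

namespace Pool.Agent.P8H73.GT

open Pool.Agent.N743.SS Pool.Agent.P8H10.ZM Pool.Agent.R356 Pool.Agent.P8H10.MF

variable {F : Subfield ℝ} (hF : Pool.Agent.Q163.LE.SimLiouville F)

include hF

lemma AI_subC (S : Finset (ℚ × ℚ)) (hS : ∀ p ∈ S, Adm p) : AlgebraicIndependent F (Cf S) :=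
  AI_of_measM hF (meas_C S hS).1

/-- **Algebraic independence** of `e` and the integrals over squares over `F` -/
theorem AI_C : AlgebraicIndependent F (fun o : Option {p : ℚ × ℚ // Adm p} =>
    o.elim (Real.exp 1) (fun p => Ct p.1.1 p.1.2)) := by
  classical
  refine algebraicIndependent_of_finite_type fun t ht => ?_
  let s : Finset (ℚ × ℚ) := (ht.toFinset.biUnion fun o => o.elim ∅ (fun p => {p.1})).filter
    (fun p => Adm p)
  have hs : ∀ p : {p : ℚ × ℚ // Adm p}, some p ∈ t → p.1 ∈ s := by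
    intro p hp
    refine Finset.mem_filter.2 ⟨Finset.mem_biUnion.2 ⟨some p, ht.mem_toFinset.2 hp, ?_⟩, p.2⟩
    simp
  have h := AI_subC hF s (fun p hp => (Finset.mem_filter.1 hp).2)
  let f : t → Option s := fun o =>
    match o with
    | ⟨none, _⟩ => none
    | ⟨some p, hp⟩ => some ⟨p.1, hs p hp⟩
  have hf : Function.Injective f := by
    rintro ⟨o, ho⟩ ⟨o', ho'⟩ hoo
    cases o with
    | none =>
      cases o' with
      | none => rfl
      | some p' => exact absurd hoo (by simp [f])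
    | some p =>
      cases o' with
      | none => exact absurd hoo (by simp [f])
      | some p' =>
        simp only [f, Option.some.injEq, Subtype.mk.injEq] at hoo
        have : p = p' := Subtype.ext hoo
        subst this
        rfl
  have h2 := h.comp f hf
  convert h2 using 1
  ext ⟨o, ho⟩
  cases o with
  | none => rfl
  | some p => rfl

omit hF in
lemma Ct_mem {p : ℚ × ℚ} (hp : Adm p) {T : Set ℝ} (h1 : Real.pi ∈ clF F T) (h2 : Pt p.1 p.2 ∈ clF F T) :
    Ct p.1 p.2 ∈ clF F T := by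
  have ha : (0 : ℝ) < ((p.1 : ℚ) : ℝ) := by exact_mod_cast hp.1
  have ha1 : ((p.1 : ℚ) : ℝ) < 1 := by
    have : p.1 < 1 := by linarith [hp.2.1]
    exact_mod_cast this
  have : Ct p.1 p.2 = Real.pi - Pt p.1 p.2 := by rw [Pt_eq ha ha1]; ring
  rw [this]
  exact (clF F T).sub_mem h1 h2

/-- a lower bound for the transcendence degree -/
theorem trdegP {r : ℕ} (y : Fin r → ℝ) (hy : Real.pi ∈ clF F ({Real.exp 1} ∪ range y)) (S : Finset (ℚ × ℚ))
    (hS : ∀ p ∈ S, Adm p) :
    ((S.card + 1 : ℕ) : Cardinal) ≤ Algebra.trdeg F (IntermediateField.adjoin F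
      ({Real.exp 1} ∪ range y ∪ (fun p : ℚ × ℚ => Pt p.1 p.2) '' (S : Set (ℚ × ℚ)))) := by
  have h := AI_subC hF S hS
  have h2 := trdeg_ge h (A := {Real.exp 1} ∪ range y ∪ (fun p : ℚ × ℚ => Pt p.1 p.2) '' (S : Set (ℚ × ℚ))) ?_
  · refine le_trans (le_of_eq ?_) h2
    simp
  · intro o
    have he : Real.exp 1 ∈ clF F ({Real.exp 1} ∪ range y ∪ (fun p : ℚ × ℚ => Pt p.1 p.2) '' (S : Set (ℚ × ℚ))) :=
      subset_clF _ (Or.inl (Or.inl rfl))
    cases o with
    | none => exact he
    | some p =>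
      exact Ct_mem (hS p.1 p.2) (clF_mono subset_union_left hy) (subset_clF _ (Or.inr ⟨p.1, p.2, rfl⟩))

/-- counting -/
theorem countP {r : ℕ} (y : Fin r → ℝ) (hy : Real.pi ∈ clF F ({Real.exp 1} ∪ range y))
    (t : Finset (Fin r ⊕ (ℚ × ℚ)))
    (ht : ∀ i ∈ t, Sum.elim y (fun p => Pt p.1 p.2) i ∈ clF F {Real.exp 1})
    (ht' : ∀ p : ℚ × ℚ, Sum.inr p ∈ t → Adm p) : t.card ≤ r := by
  classical
  obtain ⟨S, hSm, hSm'⟩ : ∃ S : Finset (ℚ × ℚ), (∀ p : ℚ × ℚ, Sum.inr p ∈ t → p ∈ S) ∧
      ∀ p ∈ S, Sum.inr p ∈ t := by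
    refine ⟨t.biUnion fun i => Sum.elim (fun _ => ∅) (fun p => {p}) i,
      fun p hp => Finset.mem_biUnion.2 ⟨_, hp, by simp⟩, fun p hp => ?_⟩
    obtain ⟨i, hi, hxi⟩ := Finset.mem_biUnion.1 hp
    rcases i with i | q
    · simp at hxi
    · simp at hxi
      subst hxi
      exact hi
  have hAI := AI_subC hF S (fun p hp => ht' p (hSm' p hp))
  obtain ⟨emb, hembd⟩ : ∃ emb : Fin r ⊕ S → Fin r ⊕ (ℚ × ℚ), emb = Sum.map id Subtype.val := ⟨_, rfl⟩
  have hemb : Function.Injective emb := by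
    rw [hembd]
    exact Function.Injective.sumMap Function.injective_id Subtype.val_injective
  obtain ⟨S', hS'd⟩ : ∃ S' : Finset (Fin r ⊕ S), S' = t.preimage emb hemb.injOn := ⟨_, rfl⟩
  have hS'card : S'.card = t.card := by
    rw [hS'd, Finset.card_preimage, Finset.filter_true_of_mem]
    intro i hi
    rw [hembd]
    rcases i with i | p
    · exact ⟨Sum.inl i, rfl⟩
    · exact ⟨Sum.inr ⟨p, hSm p hi⟩, rfl⟩
  obtain ⟨yy, hyy⟩ : ∃ yy : Fin r ⊕ S → ℝ, yy = fun k => Sum.elim y (fun p : ℚ × ℚ => Pt p.1 p.2) (emb k) := ⟨_, rfl⟩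
  have hh : ∀ k ∈ S', yy k ∈ clF F {Real.exp 1} := by
    intro k hk
    rw [hyy]
    rw [hS'd] at hk
    exact ht (emb k) (Finset.mem_preimage.1 hk)
  have h2 : ∀ o : Option S, Cf S o ∈ clF F ({Real.exp 1} ∪ range yy) := by
    intro o
    cases o with
    | none => exact subset_clF _ (Or.inl rfl)
    | some p =>
      show Ct p.1.1 p.1.2 ∈ _
      refine Ct_mem (ht' p.1 (hSm' p.1 p.2)) (clF_mono ?_ hy) (subset_clF _ (Or.inr ⟨Sum.inr p, ?_⟩))
      · refine union_subset_union_right _ ?_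
        rintro _ ⟨i, rfl⟩
        exact ⟨Sum.inl i, by rw [hyy, hembd]; rfl⟩
      · rw [hyy, hembd]
        rfl
  have key := count_gen hAI S' hh h2
  rw [Fintype.card_option, Fintype.card_coe, Fintype.card_sum, Fintype.card_fin, Fintype.card_coe, hS'card] at key
  omega

/-- if `π` is algebraic over `F(e)`, the tails are algebraically independent -/
theorem AI_P (hpi : Real.pi ∈ clF F {Real.exp 1}) :
    AlgebraicIndependent F (fun o : Option {p : ℚ × ℚ // Adm p} =>
      o.elim (Real.exp 1) (fun p => Pt p.1.1 p.1.2)) := by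
  classical
  refine algebraicIndependent_of_finite_type fun t ht => ?_
  let G : Set (Option {p : ℚ × ℚ // Adm p}) := insert none t
  have hG : G.Finite := ht.insert _
  have := hG.fintype
  have key : AlgebraicIndependent F (fun o : G => (o : Option {p : ℚ × ℚ // Adm p}).elim (Real.exp 1)
      (fun p => Pt p.1.1 p.1.2)) := by
    let f : G → Option {p : ℚ × ℚ // Adm p} := fun o => o
    have hf : Function.Injective f := Subtype.val_injective
    refine indep_of_span ((AI_C hF).comp f hf) (fun o => ?_) le_rfl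
    have he : Real.exp 1 ∈ clF F (range fun o : G => (o : Option {p : ℚ × ℚ // Adm p}).elim (Real.exp 1)
        (fun p => Pt p.1.1 p.1.2)) := subset_clF _ ⟨⟨none, Or.inl rfl⟩, rfl⟩
    obtain ⟨o, ho⟩ := o
    cases o with
    | none => exact he
    | some p =>
      exact Ct_mem p.2 (clF_le (singleton_subset_iff.2 he) hpi) (subset_clF _ ⟨⟨some p, ho⟩, rfl⟩)
  have h2 := key.comp (fun o : t => (⟨o.1, Or.inr o.2⟩ : G)) (by
    intro a b hab
    have := congrArg Subtype.val hab
    exact Subtype.ext this)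
  exact h2

end Pool.Agent.P8H73.GT
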